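import Pool.Agent.Q170.Horn

/-!
# MP_770ffc_an, Q1: no domain monotonicity up to constants if only the inner domain is convex
-/

open Set MeasureTheory Filter Topology Pool.Agent.Q170.Horn
open scoped NNReal

namespace Pool.Agent.Results.MP_770ffc_an.InnerConvexOnly

/-- The test pair `1, x - 1/2`. -/
noncomputable def tf : Fin 2 → ℝ × ℝ → ℝ := ![fun _ => 1, fun p => p.1 - 1 / 2]

theorem tf_cd (i : Fin 2) : ContDiff ℝ 1 (tf i) := by
  fin_cases i
  · exact contDiff_const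
  · exact contDiff_fst.sub contDiff_const

theorem tf_sum (t : Fin 2 → ℝ) (p : ℝ × ℝ) : ∑ i, t i * tf i p = t 0 + t 1 * (p.1 - 1 / 2) := by
  simp [Fin.sum_univ_two, tf]

theorem tf_grad (t : Fin 2 → ℝ) (p : ℝ × ℝ) : gradSq (fun q => ∑ i, t i * tf i q) p =
    t 1 ^ 2 := by
  have e : (fun q : ℝ × ℝ => ∑ i, t i * tf i q) = fun q => t 0 + t 1 * (q.1 - 1 / 2) :=
    funext (tf_sum t)
  have hd : HasFDerivAt (fun q : ℝ × ℝ => t 0 + t 1 * (q.1 - 1 / 2))
      (t 1 • ContinuousLinearMap.fst ℝ ℝ ℝ) p :=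
    ((hasFDerivAt_fst.sub_const (1 / 2 : ℝ)).const_mul (t 1)).const_add (t 0)
  unfold gradSq
  rw [e, hd.fderiv]
  simp

/-- The thin rectangle. -/
theorem rect_int {h : ℝ} (hh : 0 < h) (t : Fin 2 → ℝ) :
    ∫ p in Reg (fun _ => h), (t 0 + t 1 * (p.1 - 1 / 2)) ^ 2 = 2 * h * (t 0 ^ 2 + t 1 ^ 2 / 12) := by
  rw [integral_Reg continuous_const (fun _ => hh) (by fun_prop)]
  have e1 : ∀ x : ℝ, h * ∫ η in (-1:ℝ)..1, (t 0 + t 1 * ((x, h * η).1 - 1 / 2)) ^ 2 =
      2 * h * (t 0 + t 1 * (x - 1 / 2)) ^ 2 := by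
    intro x
    change h * ∫ _η in (-1:ℝ)..1, (t 0 + t 1 * (x - 1 / 2)) ^ 2 = _
    rw [intervalIntegral.integral_const, smul_eq_mul]; ring
  simp only [e1]
  have hder : ∀ x : ℝ, HasDerivAt (fun x => 2 * h * (t 0 ^ 2 * x + t 0 * t 1 * (x - 1 / 2) ^ 2 +
      t 1 ^ 2 * (x - 1 / 2) ^ 3 / 3)) (2 * h * (t 0 + t 1 * (x - 1 / 2)) ^ 2) x := by
    intro x
    have h0 := hasDerivAt_id x
    have h1 := h0.sub_const (1 / 2 : ℝ)
    have := ((((h0.const_mul (t 0 ^ 2)).add ((h1.pow 2).const_mul (t 0 * t 1))).add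
      (((h1.pow 3).const_mul (t 1 ^ 2)).div_const 3)).const_mul (2 * h))
    refine this.congr_deriv ?_
    simp only [id]
    norm_num
    left
    ring
  rw [intervalIntegral.integral_eq_sub_of_hasDerivAt (fun x _ => hder x)
    (Continuous.intervalIntegrable (by fun_prop) _ _)]
  ring

theorem rect_vol {h : ℝ} (hh : 0 < h) (c : ℝ) : ∫ _p in Reg (fun _ => h), c = 2 * h * c := by
  have := integral_Reg (w := fun _ => h) continuous_const (fun _ => hh)
    (F := fun _ => c) continuous_const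
  rw [this]
  simp only [intervalIntegral.integral_const, smul_eq_mul]
  ring

theorem bddBelow_mu (k : ℕ) (Ω : Set (ℝ × ℝ)) :
    BddBelow {Λ : ℝ | ∃ f : Fin (k + 1) → ℝ × ℝ → ℝ, (∀ i, ContDiff ℝ 1 (f i)) ∧
    (∀ t : Fin (k + 1) → ℝ, t ≠ 0 → 0 < ∫ p in Ω, (∑ i, t i * f i p) ^ 2) ∧
    ∀ t : Fin (k + 1) → ℝ, ∫ p in Ω, gradSq (fun q => ∑ i, t i * f i q) p ≤
      Λ * ∫ p in Ω, (∑ i, t i * f i p) ^ 2} := by
  refine ⟨0, ?_⟩
  rintro Λ ⟨f, -, h2, h3⟩
  have ht : (fun _ => 1 : Fin (k + 1) → ℝ) ≠ 0 := by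
    intro h
    have := congrFun h 0
    simp at this
  have h4 := h2 _ ht
  have h5 := h3 (fun _ => 1)
  have h6 : 0 ≤ ∫ p in Ω, gradSq (fun q => ∑ i, (fun _ => 1 : Fin (k + 1) → ℝ) i * f i q) p :=
    integral_nonneg fun p => by unfold gradSq; positivity
  by_contra hcon
  push Not at hcon
  have := mul_neg_of_neg_of_pos hcon h4
  linarith

theorem mu_rect {h : ℝ} (hh : 0 < h) : mu 1 (Reg fun _ => h) ≤ 12 := by
  apply csInf_le (bddBelow_mu 1 _)
  refine ⟨tf, tf_cd, ?_, ?_⟩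
  · intro t ht
    simp only [show ∀ p, ∑ i : Fin (1 + 1), t i * tf i p = t 0 + t 1 * (p.1 - 1 / 2) from tf_sum t]
    rw [rect_int hh]
    have : 0 < t 0 ^ 2 + t 1 ^ 2 / 12 := by
      by_contra hcon
      push Not at hcon
      apply ht
      funext i
      fin_cases i
      · change t 0 = 0
        nlinarith [sq_nonneg (t 0), sq_nonneg (t 1)]
      · change t 1 = 0
        nlinarith [sq_nonneg (t 0), sq_nonneg (t 1)]
    positivity
  · intro t
    have hg : ∀ p, gradSq (fun q => ∑ i : Fin (1 + 1), t i * tf i q) p = t 1 ^ 2 :=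
      fun p => tf_grad t p
    simp only [hg]
    simp only [show ∀ p, ∑ i : Fin (1 + 1), t i * tf i p = t 0 + t 1 * (p.1 - 1 / 2) from tf_sum t]
    rw [rect_int hh, rect_vol hh]
    nlinarith [mul_nonneg hh.le (sq_nonneg (t 0))]

theorem mu_horn {κ : ℝ} (hκ : 0 < κ) {h : ℝ} (hh : 0 < h) (hsub : Reg (fun _ => h) ⊆ Reg (w κ)) :
    κ ^ 2 / 18 ≤ mu 1 (Reg (w κ)) := by
  have hwc := (w_lip hκ).continuous
  apply le_csInf
  · -- the set of admissible constants is not empty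
    have hpos : ∀ t : Fin 2 → ℝ, 2 * h * (t 0 ^ 2 + t 1 ^ 2 / 12) ≤
        ∫ p in Reg (w κ), (t 0 + t 1 * (p.1 - 1 / 2)) ^ 2 := by
      intro t
      rw [← rect_int hh]
      apply setIntegral_mono_set
      · exact integrableOn_Reg hwc (by fun_prop)
      · exact Eventually.of_forall fun p => sq_nonneg _
      · exact hsub.eventuallyLE
    have hvol : 0 ≤ ∫ _p in Reg (w κ), (1:ℝ) := integral_nonneg fun _ => zero_le_one
    refine ⟨(∫ _p in Reg (w κ), (1:ℝ)) * (6 / h), tf, tf_cd, ?_, ?_⟩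
    · intro t ht
      simp only [show ∀ p, ∑ i : Fin (1 + 1), t i * tf i p = t 0 + t 1 * (p.1 - 1 / 2) from
        tf_sum t]
      refine lt_of_lt_of_le ?_ (hpos t)
      have : 0 < t 0 ^ 2 + t 1 ^ 2 / 12 := by
        by_contra hcon
        push Not at hcon
        apply ht
        funext i
        fin_cases i
        · change t 0 = 0
          nlinarith [sq_nonneg (t 0), sq_nonneg (t 1)]
        · change t 1 = 0
          nlinarith [sq_nonneg (t 0), sq_nonneg (t 1)]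
      positivity
    · intro t
      have hg : ∀ p, gradSq (fun q => ∑ i : Fin (1 + 1), t i * tf i q) p = t 1 ^ 2 :=
        fun p => tf_grad t p
      simp only [hg]
      simp only [show ∀ p, ∑ i : Fin (1 + 1), t i * tf i p = t 0 + t 1 * (p.1 - 1 / 2) from
        tf_sum t]
      have e1 : ∫ _p in Reg (w κ), t 1 ^ 2 = (∫ _p in Reg (w κ), (1:ℝ)) * t 1 ^ 2 := by
        rw [setIntegral_const, setIntegral_const]
        simp
      rw [e1]
      have h1 := mul_le_mul_of_nonneg_left (hpos t) (mul_nonneg hvol (by positivity : 0 ≤ 6 / h))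
      refine le_trans ?_ h1
      have h2 : (∫ _p in Reg (w κ), (1:ℝ)) * (6 / h) * (2 * h * (t 0 ^ 2 + t 1 ^ 2 / 12)) =
          (∫ _p in Reg (w κ), (1:ℝ)) * t 1 ^ 2 + (∫ _p in Reg (w κ), (1:ℝ)) * (12 * t 0 ^ 2) := by
        field_simp
        ring
      rw [h2]
      have := mul_nonneg hvol (by positivity : 0 ≤ 12 * t 0 ^ 2)
      linarith
  · rintro Λ ⟨f, hf, h2, h3⟩
    -- a combination with mean zero
    obtain ⟨t, ht, hmean⟩ : ∃ t : Fin 2 → ℝ, t ≠ 0 ∧ ∫ p in Reg (w κ), ∑ i, t i * f i p = 0 := by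
      have hi : ∀ i, IntegrableOn (f i) (Reg (w κ)) volume := fun i =>
        integrableOn_Reg hwc (hf i).continuous
      have hlin : ∀ t : Fin 2 → ℝ, ∫ p in Reg (w κ), ∑ i, t i * f i p =
          t 0 * (∫ p in Reg (w κ), f 0 p) + t 1 * ∫ p in Reg (w κ), f 1 p := by
        intro t
        simp only [Fin.sum_univ_two]
        rw [integral_add ((hi 0).const_mul _) ((hi 1).const_mul _), integral_const_mul,
          integral_const_mul]
      by_cases h0 : ∫ p in Reg (w κ), f 0 p = 0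
      · refine ⟨![1, 0], ?_, ?_⟩
        · intro h
          have := congrFun h 0
          simp at this
        · rw [hlin, h0]; simp
      · refine ⟨![∫ p in Reg (w κ), f 1 p, -∫ p in Reg (w κ), f 0 p], ?_, ?_⟩
        · intro h
          have := congrFun h 1
          simp at this
          exact h0 this
        · rw [hlin]; simp; ring
    set u : ℝ × ℝ → ℝ := fun p => ∑ i, t i * f i p with hu
    have huc : ContDiff ℝ 1 u := by
      simp only [hu, Fin.sum_univ_two]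
      exact (contDiff_const.mul (hf 0)).add (contDiff_const.mul (hf 1))
    have hpos := h2 t ht
    have hle := h3 t
    obtain ⟨c, hc⟩ := poincare hκ huc
    have hint : ∀ F : ℝ × ℝ → ℝ, Continuous F → IntegrableOn F (Reg (w κ)) volume := fun F hF =>
      integrableOn_Reg hwc hF
    have hucc := huc.continuous
    have h4 : ∫ p in Reg (w κ), (u p - c) ^ 2 = (∫ p in Reg (w κ), u p ^ 2) +
        ∫ _p in Reg (w κ), c ^ 2 := by
      have e : ∀ p, (u p - c) ^ 2 = (u p ^ 2 + c ^ 2) - 2 * c * u p := fun p => by ring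
      simp only [e]
      rw [integral_sub (hint _ (by fun_prop)) (hint _ (by fun_prop)),
        integral_add (hint _ (by fun_prop)) (hint _ (by fun_prop)), integral_const_mul, hmean]
      ring
    have h5 : 0 ≤ ∫ _p in Reg (w κ), c ^ 2 := integral_nonneg fun _ => sq_nonneg _
    have h6 : ∫ p in Reg (w κ), u p ^ 2 ≤ 18 / κ ^ 2 * ∫ p in Reg (w κ), gradSq u p := by
      linarith
    have hpos' : 0 < ∫ p in Reg (w κ), u p ^ 2 := hpos
    have hle' : ∫ p in Reg (w κ), gradSq u p ≤ Λ * ∫ p in Reg (w κ), u p ^ 2 := hle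
    have h7 : ∫ p in Reg (w κ), u p ^ 2 ≤ 18 / κ ^ 2 * (Λ * ∫ p in Reg (w κ), u p ^ 2) :=
      h6.trans (mul_le_mul_of_nonneg_left hle' (by positivity))
    have h8 : 1 ≤ 18 / κ ^ 2 * Λ := by
      by_contra hcon
      push Not at hcon
      have := mul_lt_mul_of_pos_right hcon hpos'
      linarith
    rw [div_mul_eq_mul_div, le_div_iff₀ (by positivity)] at h8
    linarith

/-- **MP_770ffc_an, Q1** (negated form, `k = 1`, `d = 2`): for every `ε > 0` there are bounded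
Lipschitz domains `Ω₁ ⊆ Ω₂` of the plane with `Ω₁` convex and `μ₁(Ω₁) / μ₁(Ω₂) < ε`. -/
theorem result (ε : ℝ) (hε : 0 < ε) : ∃ Ω₁ Ω₂ : Set (ℝ × ℝ), IsLipDomain Ω₁ ∧ IsLipDomain Ω₂ ∧
    Ω₁ ⊆ Ω₂ ∧ Convex ℝ Ω₁ ∧ 0 < mu 1 Ω₂ ∧ mu 1 Ω₁ / mu 1 Ω₂ < ε := by
  obtain ⟨κ, hκ, hκε⟩ : ∃ κ : ℝ, 0 < κ ∧ 216 / ε < κ ^ 2 := by
    refine ⟨216 / ε + 1, by positivity, ?_⟩
    have : 0 < 216 / ε := by positivity
    nlinarith
  obtain ⟨h, hh, hdef⟩ : ∃ h : ℝ, 0 < h ∧ h = W κ 1 := ⟨_, by unfold W; positivity, rfl⟩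
  have hsub : Reg (fun _ => h) ⊆ Reg (w κ) := by
    rintro p ⟨h1, h2, h3⟩
    refine ⟨h1, h2, lt_of_lt_of_le h3 ?_⟩
    rw [w_eq h1.le, hdef]
    unfold W
    apply mul_le_mul_of_nonneg_left _ (by positivity)
    apply Real.exp_le_exp.2
    nlinarith
  have hlb := mu_horn hκ hh hsub
  have hpos : 0 < mu 1 (Reg (w κ)) := lt_of_lt_of_le (by positivity) hlb
  refine ⟨Reg (fun _ => h), Reg (w κ), lip_Reg ((LipschitzWith.const h).weaken (by simp))
    (fun _ => hh), lip_Reg (w_lip hκ) (w_pos hκ), hsub, ?_, hpos, ?_⟩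
  · have e : Reg (fun _ => h) = Ioo (0:ℝ) 1 ×ˢ Ioo (-h) h := by
      ext ⟨x, y⟩
      constructor
      · rintro ⟨h1, h2, h3⟩
        exact ⟨⟨h1, h2⟩, abs_lt.1 h3⟩
      · rintro ⟨⟨h1, h2⟩, h3⟩
        exact ⟨h1, h2, abs_lt.2 h3⟩
    rw [e]
    exact (convex_Ioo _ _).prod (convex_Ioo _ _)
  · rw [div_lt_iff₀ hpos]
    refine lt_of_le_of_lt (mu_rect hh) ?_
    rw [div_lt_iff₀ hε] at hκε
    nlinarith

end Pool.Agent.Results.MP_770ffc_an.InnerConvexOnly
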